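import Pool.Agent.Q6.CI.Vizing

/-!
# The chromatic index and the deck
-/

set_option maxHeartbeats 400000

namespace Pool.Q6.CI

open SimpleGraph Finset Pool.Q11.TwoEnd

variable {n : ℕ}

/-- the two graphs have the same deck -/
def SameDeck (G H : SimpleGraph (Fin n)) : Prop :=
  ∃ σ : Fin n ≃ Fin n, ∀ v : Fin n,
    Nonempty (G.induce {w : Fin n | w ≠ v} ≃g H.induce {w : Fin n | w ≠ σ v})

theorem SameDeck.exists_perm {G H : SimpleGraph (Fin n)} {σ : Fin n ≃ Fin n} {v : Fin n}
    (h : Nonempty (G.induce {w : Fin n | w ≠ v} ≃g H.induce {w : Fin n | w ≠ σ v})) :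
    ∃ Φ : Equiv.Perm (Fin n), Φ v = σ v ∧
      ∀ x y, x ≠ v → y ≠ v → (H.Adj (Φ x) (Φ y) ↔ G.Adj x y) := by
  classical
  obtain ⟨φ⟩ := h
  let f : Fin n → Fin n := fun x => if hx : x = v then σ v else (φ ⟨x, hx⟩ : Fin n)
  have hf1 : f v = σ v := by simp [f]
  have hf2 : ∀ x (hx : x ≠ v), f x = (φ ⟨x, hx⟩ : Fin n) := by
    intro x hx; simp [f, hx]
  have hf : Function.Injective f := by
    intro x y hxy
    by_cases hx : x = v <;> by_cases hy : y = v
    · rw [hx, hy]
    · exfalso
      rw [hx, hf1, hf2 y hy] at hxy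
      exact (φ ⟨y, hy⟩).2 hxy.symm
    · exfalso
      rw [hy, hf1, hf2 x hx] at hxy
      exact (φ ⟨x, hx⟩).2 hxy
    · rw [hf2 x hx, hf2 y hy] at hxy
      have := φ.injective (Subtype.ext hxy)
      exact congrArg Subtype.val this
  refine ⟨Equiv.ofBijective f (Finite.injective_iff_bijective.1 hf), hf1, ?_⟩
  intro x y hx hy
  show H.Adj (f x) (f y) ↔ _
  rw [hf2 x hx, hf2 y hy]
  exact φ.map_rel_iff' (a := ⟨x, hx⟩) (b := ⟨y, hy⟩)

open Classical in
/-- the degree in the card -/
noncomputable def dgv (G : SimpleGraph (Fin n)) (v x : Fin n) : ℕ :=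
  (univ.filter fun w => w ≠ v ∧ G.Adj x w).card

theorem dg_split (G : SimpleGraph (Fin n)) (v x : Fin n) [Decidable (G.Adj x v)] :
    dg G x = dgv G v x + (if G.Adj x v then 1 else 0) := by
  classical
  unfold dg dgv
  by_cases h : G.Adj x v
  · rw [if_pos h]
    have : (univ.filter fun w => G.Adj x w) = insert v (univ.filter fun w => w ≠ v ∧ G.Adj x w) := by
      ext w
      simp only [mem_filter, mem_univ, true_and, mem_insert]
      constructor
      · intro hw
        by_cases hwv : w = v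
        · exact Or.inl hwv
        · exact Or.inr ⟨hwv, hw⟩
      · rintro (rfl | hw)
        · exact h
        · exact hw.2
    rw [this, card_insert_of_notMem]
    simp
  · rw [if_neg h, add_zero]
    congr 1
    ext w
    simp only [mem_filter, mem_univ, true_and]
    constructor
    · intro hw
      exact ⟨fun h' => h (h' ▸ hw), hw⟩
    · intro hw
      exact hw.2

theorem dgv_self (G : SimpleGraph (Fin n)) (v : Fin n) : dgv G v v = dg G v := by
  classical
  have := dg_split G v v
  rw [if_neg (G.loopless.irrefl v), add_zero] at this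
  exact this.symm

theorem dgv_eq {G H : SimpleGraph (Fin n)} {v v' : Fin n} {Φ : Equiv.Perm (Fin n)}
    (h1 : Φ v = v') (h2 : ∀ x y, x ≠ v → y ≠ v → (H.Adj (Φ x) (Φ y) ↔ G.Adj x y)) {x : Fin n}
    (hx : x ≠ v) : dgv H v' (Φ x) = dgv G v x := by
  classical
  unfold dgv
  symm
  apply card_bij (fun w _ => Φ w)
  · intro w hw
    simp only [mem_filter, mem_univ, true_and] at hw ⊢
    exact ⟨fun h => hw.1 (Φ.injective (h.trans h1.symm)), (h2 x w hx hw.1).2 hw.2⟩
  · intro w _ w' _ h
    exact Φ.injective h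
  · intro w hw
    simp only [mem_filter, mem_univ, true_and] at hw
    obtain ⟨z, rfl⟩ := Φ.surjective w
    have hz : z ≠ v := fun h => hw.1 (by rw [h, h1])
    refine ⟨z, ?_, rfl⟩
    simp only [mem_filter, mem_univ, true_and]
    exact ⟨hz, (h2 x z hx hz).1 hw.2⟩

/-- sum of the degrees in a card -/
theorem sum_dgv (G : SimpleGraph (Fin n)) (v : Fin n) :
    (∑ x ∈ univ.erase v, (dgv G v x : ℤ)) = (∑ x, (dg G x : ℤ)) - 2 * dg G v := by
  classical
  have h1 : ∑ x ∈ univ.erase v, (dgv G v x : ℤ) = ∑ x, (dgv G v x : ℤ) - dgv G v v := by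
    rw [← add_sum_erase univ (fun x => (dgv G v x : ℤ)) (mem_univ v)]
    ring
  have h2 : ∀ x, (dgv G v x : ℤ) = dg G x - (if G.Adj x v then 1 else 0) := by
    intro x
    have := dg_split G v x
    rw [this]
    push_cast
    ring
  have h3 : ∑ x, (if G.Adj x v then (1 : ℤ) else 0) = dg G v := by
    rw [← sum_filter, sum_const, nsmul_eq_mul, mul_one]
    unfold dg
    congr 2
    ext x
    simp [G.adj_comm]
  rw [h1, dgv_self]
  simp_rw [h2]
  rw [sum_sub_distrib, h3]
  ring

theorem dg_eq (hn : 3 ≤ n) {G H : SimpleGraph (Fin n)} {σ : Fin n ≃ Fin n}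
    (h : ∀ v : Fin n, Nonempty (G.induce {w : Fin n | w ≠ v} ≃g H.induce {w : Fin n | w ≠ σ v})) :
    ∀ v, dg H (σ v) = dg G v := by
  classical
  have hcard : ∀ v, (∑ x, (dg H x : ℤ)) - 2 * dg H (σ v) = (∑ x, (dg G x : ℤ)) - 2 * dg G v := by
    intro v
    rw [← sum_dgv, ← sum_dgv]
    obtain ⟨Φ, hΦ1, hΦ2⟩ := SameDeck.exists_perm (h v)
    symm
    apply sum_bij (fun x _ => Φ x)
    · intro x hx
      rw [mem_erase] at hx ⊢
      exact ⟨fun h => hx.1 (Φ.injective (h.trans hΦ1.symm)), mem_univ _⟩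
    · intro x _ y _ h
      exact Φ.injective h
    · intro x hx
      rw [mem_erase] at hx
      obtain ⟨z, rfl⟩ := Φ.surjective x
      exact ⟨z, by rw [mem_erase]; exact ⟨fun h => hx.1 (by rw [h, hΦ1]), mem_univ _⟩, rfl⟩
    · intro x hx
      rw [mem_erase] at hx
      rw [dgv_eq hΦ1 hΦ2 hx.1]
  -- sum over the cards
  have hsum : ∑ v, ((∑ x, (dg H x : ℤ)) - 2 * dg H (σ v)) = ∑ v, ((∑ x, (dg G x : ℤ)) - 2 * dg G v) :=
    sum_congr rfl fun v _ => hcard v
  rw [sum_sub_distrib, sum_sub_distrib, ← mul_sum, ← mul_sum, sum_const, sum_const, card_univ,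
    Fintype.card_fin, nsmul_eq_mul, nsmul_eq_mul, Equiv.sum_comp σ (fun v => (dg H v : ℤ))] at hsum
  have h3 : (∑ x, (dg H x : ℤ)) = ∑ x, (dg G x : ℤ) := by
    have h4 : ((n : ℤ) - 2) * (∑ x, (dg H x : ℤ)) = ((n : ℤ) - 2) * ∑ x, (dg G x : ℤ) := by linarith
    exact mul_left_cancel₀ (by omega) h4
  intro v
  have := hcard v
  rw [h3] at this
  have h5 : (dg H (σ v) : ℤ) = dg G v := by linarith
  exact_mod_cast h5

open Classical in
/-- the number of neighbours of `v` of degree `k` -/
noncomputable def nb (G : SimpleGraph (Fin n)) (k : ℕ) (v : Fin n) : ℕ :=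
  (univ.filter fun w => G.Adj v w ∧ dg G w = k).card

/-- the number of neighbours of maximum degree is the same for corresponding vertices -/
theorem nb_eq (hn : 3 ≤ n) {G H : SimpleGraph (Fin n)} {σ : Fin n ≃ Fin n}
    (h : ∀ v : Fin n, Nonempty (G.induce {w : Fin n | w ≠ v} ≃g H.induce {w : Fin n | w ≠ σ v}))
    {k : ℕ} (hk : ∀ v, dg G v ≤ k) (v : Fin n) : nb H k (σ v) = nb G k v := by
  classical
  have hd := dg_eq hn h
  have hkH : ∀ v, dg H v ≤ k := by
    intro v
    rw [← σ.apply_symm_apply v, hd]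
    exact hk _
  obtain ⟨Φ, hΦ1, hΦ2⟩ := SameDeck.exists_perm (h v)
  -- a general identity
  have hid : ∀ (G : SimpleGraph (Fin n)) (v : Fin n), (∀ v, dg G v ≤ k) →
      (univ.filter fun x => dg G x = k).card =
        (univ.filter fun x => x ≠ v ∧ dgv G v x = k).card + nb G k v + (if dg G v = k then 1 else 0) := by
    intro G v hk
    unfold nb
    have e1 : (univ.filter fun x => dg G x = k) =
        ((univ.filter fun x => x ≠ v ∧ dgv G v x = k) ∪ (univ.filter fun w => G.Adj v w ∧ dg G w = k)) ∪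
          (if dg G v = k then {v} else ∅) := by
      ext x
      simp only [mem_filter, mem_univ, true_and, mem_union]
      have hs := dg_split G v x
      by_cases hxv : x = v
      · subst hxv
        by_cases hx : dg G x = k
        · simp [hx]
        · simp [hx]
      · have hx2 : (x ∈ if dg G v = k then ({v} : Finset (Fin n)) else ∅) ↔ False := by
          split_ifs <;> simp [hxv]
        rw [hx2, or_false]
        by_cases ha : G.Adj x v
        · rw [if_pos ha] at hs
          have := hk x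
          constructor
          · intro hx; exact Or.inr ⟨ha.symm, hx⟩
          · rintro (hx | hx)
            · omega
            · exact hx.2
        · rw [if_neg ha, add_zero] at hs
          constructor
          · intro hx; exact Or.inl ⟨hxv, by rw [← hs]; exact hx⟩
          · rintro (hx | hx)
            · rw [hs]; exact hx.2
            · exact absurd hx.1.symm ha
    rw [e1, card_union_of_disjoint, card_union_of_disjoint]
    · congr 1
      split_ifs <;> simp
    · rw [Finset.disjoint_left]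
      intro x hx hx'
      simp only [mem_filter, mem_univ, true_and] at hx hx'
      have hs := dg_split G v x
      rw [if_pos hx'.1.symm] at hs
      have := hk x
      omega
    · rw [Finset.disjoint_left]
      intro x hx hx'
      have hxv : x = v := by
        split_ifs at hx' with hc
        · simpa using hx'
        · simp at hx'
      subst hxv
      simp at hx
  have h1 := hid G v hk
  have h2 := hid H (σ v) hkH
  have h3 : (univ.filter fun x => dg H x = k).card = (univ.filter fun x => dg G x = k).card := by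
    symm
    apply card_bij (fun x _ => σ x)
    · intro x hx
      rw [mem_filter] at hx ⊢
      exact ⟨mem_univ _, by rw [hd, hx.2]⟩
    · intro x _ y _ h
      exact σ.injective h
    · intro x hx
      rw [mem_filter] at hx
      refine ⟨σ.symm x, ?_, σ.apply_symm_apply x⟩
      rw [mem_filter]
      exact ⟨mem_univ _, by rw [← hd, σ.apply_symm_apply, hx.2]⟩
  have h4 : (univ.filter fun x => x ≠ σ v ∧ dgv H (σ v) x = k).card =
      (univ.filter fun x => x ≠ v ∧ dgv G v x = k).card := by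
    symm
    apply card_bij (fun x _ => Φ x)
    · intro x hx
      rw [mem_filter] at hx ⊢
      refine ⟨mem_univ _, fun h => hx.2.1 (Φ.injective (h.trans hΦ1.symm)), ?_⟩
      rw [dgv_eq hΦ1 hΦ2 hx.2.1, hx.2.2]
    · intro x _ y _ h
      exact Φ.injective h
    · intro x hx
      rw [mem_filter] at hx
      obtain ⟨z, rfl⟩ := Φ.surjective x
      have hz : z ≠ v := fun h => hx.2.1 (by rw [h, hΦ1])
      refine ⟨z, ?_, rfl⟩
      rw [mem_filter]
      exact ⟨mem_univ _, hz, by rw [← dgv_eq hΦ1 hΦ2 hz, hx.2.2]⟩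
  rw [h3, h4, hd] at h2
  omega

/-- edge colourings of corresponding cards -/
theorem EC_delV_iff {G H : SimpleGraph (Fin n)} {σ : Fin n ≃ Fin n} {v : Fin n}
    (h : Nonempty (G.induce {w : Fin n | w ≠ v} ≃g H.induce {w : Fin n | w ≠ σ v})) (k : ℕ) :
    EC (delV H (σ v)) k ↔ EC (delV G v) k := by
  obtain ⟨Φ, hΦ1, hΦ2⟩ := SameDeck.exists_perm h
  constructor
  · rintro ⟨c, hc⟩
    have hadj : ∀ x y, (delV G v).Adj x y → (delV H (σ v)).Adj (Φ x) (Φ y) := by
      intro x y hxy
      exact ⟨(hΦ2 x y hxy.2.1 hxy.2.2).2 hxy.1, fun h => hxy.2.1 (Φ.injective (h.trans hΦ1.symm)),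
        fun h => hxy.2.2 (Φ.injective (h.trans hΦ1.symm))⟩
    exact ⟨fun x y => c (Φ x) (Φ y), fun x y h => hc.lt _ _ (hadj x y h),
      fun x y h => hc.symm _ _ (hadj x y h),
      fun x y y' h h' he => Φ.injective (hc.inj _ _ _ (hadj x y h) (hadj x y' h') he)⟩
  · rintro ⟨c, hc⟩
    have hadj : ∀ x y, (delV H (σ v)).Adj x y → (delV G v).Adj (Φ.symm x) (Φ.symm y) := by
      intro x y hxy
      have hx : Φ.symm x ≠ v := fun h => hxy.2.1 (by rw [← hΦ1, ← h, Φ.apply_symm_apply])
      have hy : Φ.symm y ≠ v := fun h => hxy.2.2 (by rw [← hΦ1, ← h, Φ.apply_symm_apply])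
      refine ⟨?_, hx, hy⟩
      rw [← hΦ2 _ _ hx hy, Φ.apply_symm_apply, Φ.apply_symm_apply]
      exact hxy.1
    exact ⟨fun x y => c (Φ.symm x) (Φ.symm y), fun x y h => hc.lt _ _ (hadj x y h),
      fun x y h => hc.symm _ _ (hadj x y h),
      fun x y y' h h' he => Φ.symm.injective (hc.inj _ _ _ (hadj x y h) (hadj x y' h') he)⟩

theorem EC_induce {G : SimpleGraph (Fin n)} {v : Fin n} {k : ℕ} (h : EC (delV G v) k) :
    EC (G.induce {w : Fin n | w ≠ v}) k := by
  obtain ⟨c, hc⟩ := h
  have hadj : ∀ x y : {w : Fin n | w ≠ v}, (G.induce {w : Fin n | w ≠ v}).Adj x y →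
      (delV G v).Adj x y := fun x y h => ⟨h, x.2, y.2⟩
  exact ⟨fun x y => c x y, fun x y h => hc.lt _ _ (hadj x y h),
    fun x y h => hc.symm _ _ (hadj x y h),
    fun x y y' h h' he => Subtype.ext (hc.inj _ _ _ (hadj x y h) (hadj x y' h') he)⟩

/-- if some card is not connected, the graph is `k`-edge-colourable when all cards are -/
theorem EC_of_cards (hn : 3 ≤ n) {G : SimpleGraph (Fin n)} {k : ℕ} (hk : ∀ v, dg G v ≤ k) {v : Fin n}
    (hv : ¬ (G.induce {w : Fin n | w ≠ v}).Connected) (h : ∀ u, EC (delV G u) k) : EC G k := by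
  classical
  -- two vertices in different components
  obtain ⟨a, ha⟩ : ∃ a : Fin n, a ≠ v := by
    by_cases h0 : v = ⟨0, by omega⟩
    · refine ⟨⟨1, by omega⟩, ?_⟩
      rw [h0]; intro h; simp at h
    · exact ⟨⟨0, by omega⟩, fun h => h0 h.symm⟩
  have hnp : ¬ (G.induce {w : Fin n | w ≠ v}).Preconnected := by
    intro hp
    have : Nonempty ↑{w : Fin n | w ≠ v} := ⟨⟨a, ha⟩⟩
    exact hv ⟨hp⟩
  unfold SimpleGraph.Preconnected at hnp
  push Not at hnp
  obtain ⟨⟨p, hp⟩, ⟨q, hq⟩, hpq⟩ := hnp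
  set S : Finset (Fin n) := univ.filter fun x => ∃ hx : x ≠ v,
    (G.induce {w : Fin n | w ≠ v}).Reachable ⟨p, hp⟩ ⟨x, hx⟩ with hS
  have hmem : ∀ x, x ∈ S ↔ ∃ hx : x ≠ v, (G.induce {w : Fin n | w ≠ v}).Reachable ⟨p, hp⟩ ⟨x, hx⟩ := by
    intro x; rw [hS, mem_filter]; simp
  have hvS : v ∉ S := by
    intro h; obtain ⟨h1, -⟩ := (hmem v).1 h; exact h1 rfl
  have hpS : p ∈ S := (hmem p).2 ⟨hp, Reachable.refl _⟩
  have hqS : q ∉ S := by
    intro h; obtain ⟨h1, h2⟩ := (hmem q).1 h; exact hpq h2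
  refine glue hvS ?_ (hk v) (h q) (h p) ?_ ?_
  · intro x y hxy hx
    by_cases hyv : y = v
    · exact Or.inr hyv
    · left
      obtain ⟨hxv, hr⟩ := (hmem x).1 hx
      refine (hmem y).2 ⟨hyv, hr.trans ?_⟩
      apply Adj.reachable
      exact hxy
  · -- the edges at `S` avoid `q`
    intro x y hxy hx
    refine ⟨hxy, fun h => hqS (h ▸ hx), ?_⟩
    rintro rfl
    obtain ⟨hxv, hr⟩ := (hmem x).1 hx
    apply hqS
    refine (hmem y).2 ⟨hq, hr.trans ?_⟩
    apply Adj.reachable
    exact hxy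
  · intro x y hxy hx hy
    exact ⟨hxy, fun h => hx (h ▸ hpS), fun h => hy (h ▸ hpS)⟩

theorem connected_iff {G H : SimpleGraph (Fin n)} {σ : Fin n ≃ Fin n} {v : Fin n}
    (h : Nonempty (G.induce {w : Fin n | w ≠ v} ≃g H.induce {w : Fin n | w ≠ σ v})) :
    (G.induce {w : Fin n | w ≠ v}).Connected ↔ (H.induce {w : Fin n | w ≠ σ v}).Connected := by
  obtain ⟨φ⟩ := h
  exact φ.connected_iff

/-- the exceptional situation -/
structure Bad (G : SimpleGraph (Fin n)) (k : ℕ) : Prop where
  /-- every vertex has at least two neighbours of degree `k` -/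
  nb : ∀ v, 2 ≤ nb G k v
  /-- every card is connected -/
  conn : ∀ v, (G.induce {w : Fin n | w ≠ v}).Connected
  /-- every card is `k`-edge-colourable -/
  col : ∀ v, EC (delV G v) k
  /-- `G` is not overfull -/
  ovf : ∑ v, dg G v ≤ k * (2 * (n / 2))

theorem EC_iff (hn : 3 ≤ n) {G H : SimpleGraph (Fin n)} {σ : Fin n ≃ Fin n}
    (h : ∀ v : Fin n, Nonempty (G.induce {w : Fin n | w ≠ v} ≃g H.induce {w : Fin n | w ≠ σ v}))
    {k : ℕ} (hk : ∀ v, dg G v ≤ k) (hb : ¬ Bad G k) : EC G k ↔ EC H k := by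
  classical
  have hd := dg_eq hn h
  have hkH : ∀ v, dg H v ≤ k := by
    intro v
    rw [← σ.apply_symm_apply v, hd]
    exact hk _
  by_cases h1 : ∀ v, EC (delV G v) k
  swap
  · push Not at h1
    obtain ⟨v, hv⟩ := h1
    constructor
    · intro hG; exact absurd (hG.mono (delV_le G v)) hv
    · intro hH
      exact absurd ((EC_delV_iff (h v) k).1 (hH.mono (delV_le H (σ v)))) hv
  have h1' : ∀ v, EC (delV H v) k := by
    intro v
    have := (EC_delV_iff (h (σ.symm v)) k).2 (h1 _)
    rwa [σ.apply_symm_apply] at this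
  by_cases h2 : ∀ v, (G.induce {w : Fin n | w ≠ v}).Connected
  swap
  · push Not at h2
    obtain ⟨v, hv⟩ := h2
    have hv' : ¬ (H.induce {w : Fin n | w ≠ σ v}).Connected := fun h' => hv ((connected_iff (h v)).2 h')
    exact ⟨fun _ => EC_of_cards hn hkH hv' h1', fun _ => EC_of_cards hn hk hv h1⟩
  by_cases h3 : ∀ v, 2 ≤ nb G k v
  swap
  · push Not at h3
    obtain ⟨v, hv⟩ := h3
    have huniq : ∀ (G : SimpleGraph (Fin n)) (v : Fin n), nb G k v < 2 →
        ∀ w w', G.Adj v w → G.Adj v w' → dg G w = k → dg G w' = k → w = w' := by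
      intro G v hv w w' h1 h2 h3 h4
      by_contra hne
      have : ({w, w'} : Finset (Fin n)) ⊆ univ.filter fun w => G.Adj v w ∧ dg G w = k := by
        intro x hx
        rw [mem_insert, mem_singleton] at hx
        rw [mem_filter]
        rcases hx with rfl | rfl
        · exact ⟨mem_univ _, h1, h3⟩
        · exact ⟨mem_univ _, h2, h4⟩
      have := card_le_card this
      rw [card_pair hne] at this
      unfold nb at hv
      omega
    have hG : EC G k := ext_vertex (hk v) (fun w _ => hk w) (huniq G v hv) (h1 v)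
    have hv' : nb H k (σ v) < 2 := by rw [nb_eq hn h hk]; exact hv
    have hH : EC H k := ext_vertex (hkH _) (fun w _ => hkH w) (huniq H (σ v) hv') (h1' _)
    exact ⟨fun _ => hH, fun _ => hG⟩
  by_cases h4 : ∑ v, dg G v ≤ k * (2 * (n / 2))
  · exact absurd ⟨h3, h2, h1, h4⟩ hb
  have h4' : ∑ v, dg H v = ∑ v, dg G v := by
    rw [← Equiv.sum_comp σ (fun v => dg H v)]
    exact sum_congr rfl fun v _ => hd v
  constructor
  · intro hG
    have := EC.sum_dg_le hG
    rw [Fintype.card_fin] at this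
    exact absurd this h4
  · intro hH
    have := EC.sum_dg_le hH
    rw [Fintype.card_fin, h4'] at this
    exact absurd this h4

theorem chromaticNumber_eq {V W : Type*} {G : SimpleGraph V} {H : SimpleGraph W}
    (h : ∀ k : ℕ, G.Colorable k ↔ H.Colorable k) : G.chromaticNumber = H.chromaticNumber := by
  unfold SimpleGraph.chromaticNumber
  have : {n : ℕ | G.Colorable n} = {n : ℕ | H.Colorable n} := Set.ext h
  rw [this]

theorem main (hn : 3 ≤ n) {G H : SimpleGraph (Fin n)} {σ : Fin n ≃ Fin n}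
    (h : ∀ v : Fin n, Nonempty (G.induce {w : Fin n | w ≠ v} ≃g H.induce {w : Fin n | w ≠ σ v}))
    {k : ℕ} (hk : ∀ v, dg G v ≤ k) (hk' : ∃ v, dg G v = k) (hb : ¬ Bad G k) :
    G.lineGraph.chromaticNumber = H.lineGraph.chromaticNumber := by
  have hd := dg_eq hn h
  have hkH : ∀ v, dg H v ≤ k := by
    intro v
    rw [← σ.apply_symm_apply v, hd]
    exact hk _
  obtain ⟨v, hv⟩ := hk'
  apply chromaticNumber_eq
  intro l
  rw [colorable_iff_EC, colorable_iff_EC]
  rcases lt_trichotomy l k with hl | hl | hl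
  · constructor
    · intro hG
      have := EC.dg_le hG v
      omega
    · intro hH
      have := EC.dg_le hH (σ v)
      rw [hd] at this
      omega
  · rw [hl]
    exact EC_iff hn h hk hb
  · exact ⟨fun _ => EC.mono_right (vizing hkH) hl, fun _ => EC.mono_right (vizing hk) hl⟩

end Pool.Q6.CI
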