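import Pool.Agent.Q11.TwoEnd.Fan

/-!
# Edge colourings: extension at a vertex, cut vertices, overfull graphs
-/

set_option maxHeartbeats 400000

namespace Pool.Q6.CI

open SimpleGraph Finset Pool.Q11.TwoEnd

variable {V : Type*}

/-- from a colouring of the line graph to a colour function -/
theorem EC.of_colorable {G : SimpleGraph V} {k : ℕ} (h : G.lineGraph.Colorable k) : EC G k := by
  classical
  obtain ⟨C⟩ := h
  refine ⟨fun v w => if h : G.Adj v w then (C ⟨s(v, w), h⟩ : ℕ) else 0, ?_, ?_, ?_⟩
  · intro v w h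
    simp only [h, dif_pos]
    exact (C ⟨s(v, w), h⟩).2
  · intro v w h
    simp only [h, h.symm, dif_pos]
    have : (⟨s(v, w), h⟩ : G.edgeSet) = ⟨s(w, v), h.symm⟩ := Subtype.ext Sym2.eq_swap
    rw [this]
  · intro v w w' h h' he
    simp only [h, h', dif_pos] at he
    by_contra hne
    have hadj : G.lineGraph.Adj ⟨s(v, w), h⟩ ⟨s(v, w'), h'⟩ := by
      rw [lineGraph_adj_iff_exists]
      refine ⟨?_, v, by simp, by simp⟩
      intro h2
      have h3 : s(v, w) = s(v, w') := congrArg Subtype.val h2
      rw [Sym2.eq_iff] at h3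
      rcases h3 with h3 | h3
      · exact hne h3.2
      · exact hne (h3.2.trans h3.1)
    exact C.valid hadj (Fin.ext he)

theorem EC.colorable {G : SimpleGraph V} {k : ℕ} (h : EC G k) : G.lineGraph.Colorable k := by
  classical
  obtain ⟨c, hc⟩ := h
  have hout : ∀ e : G.edgeSet, ∃ v w, ∃ h : G.Adj v w, (e : Sym2 V) = s(v, w) := by
    rintro ⟨e, he⟩
    induction e using Sym2.ind with
    | _ v w => exact ⟨v, w, he, rfl⟩
  choose a b hab he using hout
  refine ⟨Coloring.mk (fun e => (⟨c (a e) (b e), hc.lt _ _ (hab e)⟩ : Fin k)) ?_⟩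
  intro e e' hadj heq
  rw [lineGraph_adj_iff_exists] at hadj
  obtain ⟨hne, v, hv, hv'⟩ := hadj
  have hcol : ∀ e : G.edgeSet, v ∈ (e : Sym2 V) → ∃ w, ∃ _ : G.Adj v w, (e : Sym2 V) = s(v, w) ∧
      c (a e) (b e) = c v w := by
    intro e hv
    rw [he e, Sym2.mem_iff] at hv
    rcases hv with hv | hv
    · exact ⟨b e, hv ▸ hab e, by rw [he e, hv], by rw [hv]⟩
    · exact ⟨a e, hv ▸ (hab e).symm, by rw [he e, hv, Sym2.eq_swap], by rw [hv, hc.symm _ _ (hab e)]⟩
  obtain ⟨w, h1, h2, h3⟩ := hcol e hv
  obtain ⟨w', h1', h2', h3'⟩ := hcol e' hv'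
  have h4 : c (a e) (b e) = c (a e') (b e') := congrArg Fin.val heq
  rw [h3, h3'] at h4
  have h5 := hc.inj v w w' h1 h1' h4
  apply hne
  apply Subtype.ext
  rw [h2, h2', h5]

theorem colorable_iff_EC {G : SimpleGraph V} {k : ℕ} : G.lineGraph.Colorable k ↔ EC G k :=
  ⟨EC.of_colorable, EC.colorable⟩

section Fin

variable [Fintype V]

open Classical in
/-- degree -/
noncomputable def dg (G : SimpleGraph V) (v : V) : ℕ := (univ.filter fun w => G.Adj v w).card

theorem exists_miss {G : SimpleGraph V} {n : ℕ} (c : V → V → ℕ) {w : V}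
    (hdeg : dg G w < n) : ∃ a, a < n ∧ Miss G c w a := by
  classical
  by_contra hcon
  push Not at hcon
  have h1 : range n ⊆ (univ.filter fun u => G.Adj w u).image (c w) := by
    intro a ha
    have h2 := hcon a (mem_range.1 ha)
    unfold Miss at h2
    push Not at h2
    obtain ⟨u, hu, hcu⟩ := h2
    exact mem_image.2 ⟨u, mem_filter.2 ⟨mem_univ _, hu⟩, hcu⟩
  have h2 := card_le_card h1
  rw [card_range] at h2
  have h3 : ((univ.filter fun u => G.Adj w u).image (c w)).card ≤ dg G w := card_image_le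
  omega

theorem dg_mono {G G' : SimpleGraph V} (h : G ≤ G') (v : V) : dg G v ≤ dg G' v := by
  classical
  unfold dg
  apply card_le_card
  intro w hw
  rw [mem_filter] at hw ⊢
  exact ⟨hw.1, h hw.2⟩

/-- `G` without the edges at `v` -/
def delV (G : SimpleGraph V) (v : V) : SimpleGraph V where
  Adj x y := G.Adj x y ∧ x ≠ v ∧ y ≠ v
  symm := ⟨fun _ _ h => ⟨h.1.symm, h.2.2, h.2.1⟩⟩
  loopless := ⟨fun _ h => h.1.ne rfl⟩

/-- `G` with only the edges from `v` to `S` at `v` -/
def part (G : SimpleGraph V) (v : V) (S : Finset V) : SimpleGraph V where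
  Adj x y := G.Adj x y ∧ (x = v → y ∈ S) ∧ (y = v → x ∈ S)
  symm := ⟨fun _ _ h => ⟨h.1.symm, h.2.2, h.2.1⟩⟩
  loopless := ⟨fun _ h => h.1.ne rfl⟩

omit [Fintype V] in
theorem part_le (G : SimpleGraph V) (v : V) (S : Finset V) : part G v S ≤ G := fun _ _ h => h.1

omit [Fintype V] in
theorem delV_le (G : SimpleGraph V) (v : V) : delV G v ≤ G := fun _ _ h => h.1

theorem part_step [DecidableEq V] {G : SimpleGraph V} {n : ℕ} {v : V} {S : Finset V} {y : V} (hy : G.Adj v y)
    (hyS : y ∉ S) (hv : dg G v ≤ n) (hS : ∀ w ∈ S, G.Adj v w ∧ dg G w < n) (hyn : dg G y ≤ n)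
    (h : EC (part G v S) n) : EC (part G v (insert y S)) n := by
  classical
  obtain ⟨c, hc⟩ := h
  have hvy : v ≠ y := hy.ne
  have hna : ¬ (part G v S).Adj v y := fun h => hyS (h.2.1 rfl)
  have hvS : v ∉ S := fun h => (hS v h).1.ne rfl
  have key := fan_lemma hc hvy hna (x := v) (y := y) ?_ ?_
  · refine key.mono ?_
    intro a b hab
    rw [addE_adj]
    refine ⟨hab.1.ne, ?_⟩
    obtain ⟨h1, h2, h3⟩ := hab
    by_cases ha : a = v
    · have hb := h2 ha
      rw [mem_insert] at hb
      rcases hb with hb | hb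
      · exact Or.inr (Or.inl ⟨ha, hb⟩)
      · refine Or.inl ⟨h1, fun _ => hb, fun h => ?_⟩
        exact absurd (ha.trans h.symm) h1.ne
    · by_cases hb : b = v
      · have hb' := h3 hb
        rw [mem_insert] at hb'
        rcases hb' with hb' | hb'
        · exact Or.inr (Or.inr ⟨hb', hb⟩)
        · exact Or.inl ⟨h1, fun h => absurd h ha, fun _ => hb'⟩
      · exact Or.inl ⟨h1, fun h => absurd h ha, fun h => absurd h hb⟩
  · apply exists_miss
    have h1 : insert y (univ.filter fun w => (part G v S).Adj v w) ⊆ univ.filter fun w => G.Adj v w := by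
      intro w hw
      rw [mem_insert, mem_filter] at hw
      rw [mem_filter]
      rcases hw with rfl | hw
      · exact ⟨mem_univ _, hy⟩
      · exact ⟨mem_univ _, hw.2.1⟩
    have h2 := card_le_card h1
    rw [card_insert_of_notMem (by rw [mem_filter]; exact fun h => hna h.2)] at h2
    have h3 : (univ.filter fun w => (part G v S).Adj v w).card = dg (part G v S) v := rfl
    have h4 : (univ.filter fun w => G.Adj v w).card = dg G v := rfl
    omega
  · intro w hw
    apply exists_miss
    rcases hw with rfl | hw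
    · have h1 : insert v (univ.filter fun u => (part G v S).Adj w u) ⊆ univ.filter fun u => G.Adj w u := by
        intro u hu
        rw [mem_insert, mem_filter] at hu
        rw [mem_filter]
        rcases hu with rfl | hu
        · exact ⟨mem_univ _, hy.symm⟩
        · exact ⟨mem_univ _, hu.2.1⟩
      have h2 := card_le_card h1
      rw [card_insert_of_notMem (by rw [mem_filter]; exact fun h => hna h.2.symm)] at h2
      have h3 : (univ.filter fun u => (part G v S).Adj w u).card = dg (part G v S) w := rfl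
      have h4 : (univ.filter fun u => G.Adj w u).card = dg G w := rfl
      omega
    · have h1 := (hS w (hw.2.1 rfl)).2
      exact lt_of_le_of_lt (dg_mono (part_le G v S) w) h1

theorem part_of_delV {G : SimpleGraph V} {v : V} {n : ℕ} (h : EC (delV G v) n) : EC (part G v ∅) n := by
  refine h.mono ?_
  intro a b hab
  refine ⟨hab.1, fun h => ?_, fun h => ?_⟩
  · exact absurd (hab.2.1 h) (notMem_empty _)
  · exact absurd (hab.2.2 h) (notMem_empty _)

/-- **Extension at a vertex** (Vizing) -/
theorem ext_vertex {G : SimpleGraph V} {n : ℕ} {v : V} (hv : dg G v ≤ n)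
    (hN : ∀ w, G.Adj v w → dg G w ≤ n)
    (h1 : ∀ w w', G.Adj v w → G.Adj v w' → dg G w = n → dg G w' = n → w = w')
    (h : EC (delV G v) n) : EC G n := by
  classical
  -- first the neighbours of small degree
  have hsmall : ∀ S : Finset V, (∀ w ∈ S, G.Adj v w ∧ dg G w < n) → EC (part G v S) n := by
    intro S
    induction S using Finset.induction_on with
    | empty => intro _; exact part_of_delV h
    | insert y S hyS ih =>
      intro hS
      have hy := hS y (mem_insert_self _ _)
      exact part_step hy.1 hyS hv (fun w hw => hS w (mem_insert_of_mem hw)) hy.2.le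
        (ih fun w hw => hS w (mem_insert_of_mem hw))
  set S := univ.filter fun w => G.Adj v w ∧ dg G w < n with hSdef
  have hS : ∀ w ∈ S, G.Adj v w ∧ dg G w < n := by
    intro w hw
    rw [hSdef, mem_filter] at hw
    exact hw.2
  have hES := hsmall S hS
  by_cases hex : ∃ y, G.Adj v y ∧ dg G y = n
  · obtain ⟨y, hy1, hy2⟩ := hex
    have hyS : y ∉ S := by
      intro hyS
      have := (hS y hyS).2
      omega
    have := part_step hy1 hyS hv hS hy2.le hES
    refine this.mono ?_
    have hmem : ∀ b, G.Adj v b → b ∈ insert y S := by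
      intro b hb
      rw [mem_insert]
      by_cases hbn : dg G b = n
      · exact Or.inl (h1 b y hb hy1 hbn hy2)
      · refine Or.inr ?_
        rw [hSdef, mem_filter]
        exact ⟨mem_univ _, hb, lt_of_le_of_ne (hN b hb) hbn⟩
    intro a b hab
    exact ⟨hab, fun h => hmem b (h ▸ hab), fun h => hmem a (h ▸ hab.symm)⟩
  · push Not at hex
    refine hES.mono ?_
    have hmem : ∀ b, G.Adj v b → b ∈ S := by
      intro b hb
      rw [hSdef, mem_filter]
      exact ⟨mem_univ _, hb, lt_of_le_of_ne (hN b hb) (hex b hb)⟩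
    intro a b hab
    exact ⟨hab, fun h => hmem b (h ▸ hab), fun h => hmem a (h ▸ hab.symm)⟩

/-- `G` with only the edges inside `S` -/
def ins (G : SimpleGraph V) (S : Finset V) : SimpleGraph V where
  Adj x y := G.Adj x y ∧ x ∈ S ∧ y ∈ S
  symm := ⟨fun _ _ h => ⟨h.1.symm, h.2.2, h.2.1⟩⟩
  loopless := ⟨fun _ h => h.1.ne rfl⟩

/-- **Vizing's theorem** -/
theorem vizing {G : SimpleGraph V} {k : ℕ} (hG : ∀ v, dg G v ≤ k) : EC G (k + 1) := by
  classical
  have key : ∀ S : Finset V, EC (ins G S) (k + 1) := by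
    intro S
    induction S using Finset.induction_on with
    | empty =>
      refine ⟨fun _ _ => 0, ?_, ?_, ?_⟩
      · intro v w h; exact absurd h.2.1 (notMem_empty _)
      · intro v w h; rfl
      · intro v w w' h; exact absurd h.2.1 (notMem_empty _)
    | insert y S hyS ih =>
      have hle : ins G (insert y S) ≤ G := fun _ _ h => h.1
      have hd : ∀ v, dg (ins G (insert y S)) v < k + 1 := by
        intro v
        have := dg_mono hle v
        have := hG v
        omega
      refine ext_vertex (v := y) (hd y).le (fun w _ => (hd w).le) ?_ ?_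
      · intro w w' _ _ h _
        have := hd w
        omega
      · refine ih.mono ?_
        intro a b hab
        obtain ⟨⟨h1, h2, h3⟩, h4, h5⟩ := hab
        exact ⟨h1, mem_of_mem_insert_of_ne h2 h4, mem_of_mem_insert_of_ne h3 h5⟩
  refine (key univ).mono ?_
  intro a b hab
  exact ⟨hab, mem_univ _, mem_univ _⟩

theorem EC.mono_right {G : SimpleGraph V} {k l : ℕ} (h : EC G k) (hkl : k ≤ l) : EC G l := by
  obtain ⟨c, hc⟩ := h
  exact ⟨c, fun v w h => lt_of_lt_of_le (hc.lt v w h) hkl, hc.symm, hc.inj⟩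

theorem EC.dg_le {G : SimpleGraph V} {k : ℕ} (h : EC G k) (v : V) : dg G v ≤ k := by
  classical
  obtain ⟨c, hc⟩ := h
  unfold dg
  have : (univ.filter fun w => G.Adj v w).card ≤ (range k).card := by
    apply card_le_card_of_injOn (c v)
    · intro w hw
      rw [mem_coe, mem_filter] at hw
      exact mem_coe.2 (mem_range.2 (hc.lt v w hw.2))
    · intro w hw w' hw' h
      rw [mem_coe, mem_filter] at hw hw'
      exact hc.inj v w w' hw.2 hw'.2 h
  rwa [card_range] at this

/-- permuting colours so that two small sets of colours become disjoint -/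
theorem exists_perm_disj (k : ℕ) (C1 C2 : Finset (Fin k)) (h : C1.card + C2.card ≤ k) :
    ∃ π : Equiv.Perm (Fin k), ∀ a ∈ C1, π a ∉ C2 := by
  classical
  obtain ⟨C, hC, hCc⟩ := exists_subset_card_eq (s := C2ᶜ) (n := C1.card)
    (by rw [card_compl, Fintype.card_fin]; omega)
  let e : {x // x ∈ C1} ≃ {x // x ∈ C} := Finset.equivOfCardEq hCc.symm
  refine ⟨e.extendSubtype, ?_⟩
  intro a ha
  rw [Equiv.extendSubtype_apply_of_mem e a ha]
  have := hC (e ⟨a, ha⟩).2
  rwa [mem_compl] at this

/-- **Gluing at a cut vertex** -/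
theorem glue {G : SimpleGraph V} {k : ℕ} {v : V} {S : Finset V} (hvS : v ∉ S)
    (hS : ∀ x y, G.Adj x y → x ∈ S → y ∈ S ∨ y = v) (hv : dg G v ≤ k)
    {G1 G2 : SimpleGraph V} (h1 : EC G1 k) (h2 : EC G2 k)
    (hG1 : ∀ x y, G.Adj x y → x ∈ S → G1.Adj x y)
    (hG2 : ∀ x y, G.Adj x y → x ∉ S → y ∉ S → G2.Adj x y) : EC G k := by
  classical
  obtain ⟨c1, hc1⟩ := h1
  obtain ⟨c2, hc2⟩ := h2
  rcases Nat.eq_zero_or_pos k with hk | hk
  · subst hk
    refine ⟨fun _ _ => 0, ?_, ?_, ?_⟩
    · intro x y h
      exfalso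
      by_cases hx : x ∈ S
      · exact absurd (hc1.lt x y (hG1 x y h hx)) (Nat.not_lt_zero _)
      · by_cases hy : y ∈ S
        · exact absurd (hc1.lt y x (hG1 y x h.symm hy)) (Nat.not_lt_zero _)
        · exact absurd (hc2.lt x y (hG2 x y h hx hy)) (Nat.not_lt_zero _)
    · intro _ _ _; rfl
    · intro x y y' h
      exfalso
      by_cases hx : x ∈ S
      · exact absurd (hc1.lt x y (hG1 x y h hx)) (Nat.not_lt_zero _)
      · by_cases hy : y ∈ S
        · exact absurd (hc1.lt y x (hG1 y x h.symm hy)) (Nat.not_lt_zero _)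
        · exact absurd (hc2.lt x y (hG2 x y h hx hy)) (Nat.not_lt_zero _)
  have : NeZero k := ⟨hk.ne'⟩
  -- colours at `v`
  let f : ℕ → Fin k := fun a => Fin.ofNat k a
  have hf : ∀ a, a < k → (f a : ℕ) = a := fun a ha => Nat.mod_eq_of_lt ha
  set N1 := univ.filter fun w => G.Adj v w ∧ w ∈ S with hN1
  set N2 := univ.filter fun w => G.Adj v w ∧ w ∉ S with hN2
  have hN : N1.card + N2.card = dg G v := by
    unfold dg
    rw [← card_union_of_disjoint]
    · congr 1
      ext w
      simp only [hN1, hN2, mem_union, mem_filter, mem_univ, true_and]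
      tauto
    · rw [Finset.disjoint_left]
      intro w hw hw'
      rw [hN1, mem_filter] at hw
      rw [hN2, mem_filter] at hw'
      exact hw'.2.2 hw.2.2
  have hc1card : (N1.image fun w => f (c1 w v)).card ≤ N1.card := card_image_le
  have hc2card : (N2.image fun w => f (c2 v w)).card ≤ N2.card := card_image_le
  obtain ⟨π, hπ⟩ := exists_perm_disj k (N1.image fun w => f (c1 w v)) (N2.image fun w => f (c2 v w))
    (by omega)
  have hg1 : ∀ x y, G.Adj x y → (x ∈ S ∨ y ∈ S) → G1.Adj x y := by
    intro x y h hxy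
    rcases hxy with hx | hy
    · exact hG1 x y h hx
    · exact (hG1 y x h.symm hy).symm
  have hp : ∀ a b, a < k → b < k → (π (f a) : ℕ) = (π (f b) : ℕ) → a = b := by
    intro a b ha hb h
    have h1 := π.injective (Fin.ext h)
    have h2 := congrArg Fin.val h1
    rwa [hf a ha, hf b hb] at h2
  refine ⟨fun x y => if x ∈ S ∨ y ∈ S then (π (f (c1 x y)) : ℕ) else c2 x y, ?_, ?_, ?_⟩
  · intro x y h
    show (if x ∈ S ∨ y ∈ S then (π (f (c1 x y)) : ℕ) else c2 x y) < k
    split_ifs with hs
    · exact (π _).2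
    · push Not at hs
      exact hc2.lt x y (hG2 x y h hs.1 hs.2)
  · intro x y h
    show (if x ∈ S ∨ y ∈ S then (π (f (c1 x y)) : ℕ) else c2 x y) =
      (if y ∈ S ∨ x ∈ S then (π (f (c1 y x)) : ℕ) else c2 y x)
    by_cases hs : x ∈ S ∨ y ∈ S
    · rw [if_pos hs, if_pos hs.symm, hc1.symm x y (hg1 x y h hs)]
    · rw [if_neg hs, if_neg (fun h => hs h.symm)]
      push Not at hs
      exact hc2.symm x y (hG2 x y h hs.1 hs.2)
  · intro x y y' h h' heq
    change (if x ∈ S ∨ y ∈ S then (π (f (c1 x y)) : ℕ) else c2 x y) =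
      (if x ∈ S ∨ y' ∈ S then (π (f (c1 x y')) : ℕ) else c2 x y') at heq
    by_cases hx : x ∈ S
    · rw [if_pos (Or.inl hx), if_pos (Or.inl hx)] at heq
      exact hc1.inj x y y' (hG1 x y h hx) (hG1 x y' h' hx)
        (hp _ _ (hc1.lt _ _ (hG1 x y h hx)) (hc1.lt _ _ (hG1 x y' h' hx)) heq)
    · -- the mixed case
      have hmix : ∀ y y', G.Adj x y → G.Adj x y' → y ∈ S → y' ∉ S →
          (π (f (c1 x y)) : ℕ) ≠ c2 x y' := by
        intro y y' h h' hy hy' heq
        have hxv : x = v := by
          rcases hS y x h.symm hy with h2 | h2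
          · exact absurd h2 hx
          · exact h2
        subst hxv
        have h3 : f (c1 y x) ∈ N1.image fun w => f (c1 w x) :=
          mem_image.2 ⟨y, by rw [hN1, mem_filter]; exact ⟨mem_univ _, h, hy⟩, rfl⟩
        apply hπ _ h3
        refine mem_image.2 ⟨y', by rw [hN2, mem_filter]; exact ⟨mem_univ _, h', hy'⟩, ?_⟩
        apply Fin.ext
        rw [hf _ (hc2.lt _ _ (hG2 x y' h' hx hy')), ← heq,
          hc1.symm x y (hg1 x y h (Or.inr hy))]
      by_cases hy : y ∈ S <;> by_cases hy' : y' ∈ S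
      · rw [if_pos (Or.inr hy), if_pos (Or.inr hy')] at heq
        have e1 := hg1 x y h (Or.inr hy)
        have e2 := hg1 x y' h' (Or.inr hy')
        exact hc1.inj x y y' e1 e2 (hp _ _ (hc1.lt _ _ e1) (hc1.lt _ _ e2) heq)
      · rw [if_pos (Or.inr hy), if_neg (by tauto)] at heq
        exact absurd heq (hmix y y' h h' hy hy')
      · rw [if_neg (by tauto), if_pos (Or.inr hy')] at heq
        exact absurd heq.symm (hmix y' y h' h hy' hy)
      · rw [if_neg (by tauto), if_neg (by tauto)] at heq
        exact hc2.inj x y y' (hG2 x y h hx hy) (hG2 x y' h' hx hy') heq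

/-- **Overfull graphs** -/
theorem EC.sum_dg_le {G : SimpleGraph V} {k : ℕ} (h : EC G k) :
    ∑ v, dg G v ≤ k * (2 * (Fintype.card V / 2)) := by
  classical
  obtain ⟨c, hc⟩ := h
  -- the vertices with an edge of colour `a`
  let W : ℕ → Finset V := fun a => univ.filter fun v => ∃ w, G.Adj v w ∧ c v w = a
  have h1 : ∀ v, dg G v = ∑ a ∈ range k, if v ∈ W a then 1 else 0 := by
    intro v
    rw [← card_filter]
    unfold dg
    apply card_bij (fun w _ => c v w)
    · intro w hw
      rw [mem_filter] at hw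
      rw [mem_filter, mem_range]
      refine ⟨hc.lt v w hw.2, ?_⟩
      simp only [W, mem_filter, mem_univ, true_and]
      exact ⟨w, hw.2, rfl⟩
    · intro w hw w' hw' h
      rw [mem_filter] at hw hw'
      exact hc.inj v w w' hw.2 hw'.2 h
    · intro a ha
      rw [mem_filter] at ha
      simp only [W, mem_filter, mem_univ, true_and] at ha
      obtain ⟨-, w, hw1, hw2⟩ := ha
      exact ⟨w, by rw [mem_filter]; exact ⟨mem_univ _, hw1⟩, hw2⟩
  have h2 : ∑ v, dg G v = ∑ a ∈ range k, (W a).card := by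
    simp_rw [h1]
    rw [sum_comm]
    apply sum_congr rfl
    intro a _
    rw [← card_filter]
    congr 1
    ext v
    simp
  have h3 : ∀ a ∈ range k, (W a).card ≤ 2 * (Fintype.card V / 2) := by
    intro a _
    have heven : Even (W a).card := by
      have hchoose : ∀ v ∈ W a, ∃ w, G.Adj v w ∧ c v w = a := by
        intro v hv
        simp only [W, mem_filter, mem_univ, true_and] at hv
        exact hv
      choose g hg1 hg2 using hchoose
      have hsum : ∑ v ∈ W a, (1 : ZMod 2) = 0 := by
        refine Finset.sum_involution (fun v hv => g v hv) ?_ ?_ ?_ ?_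
        · intro v hv; decide
        · intro v hv _ h
          exact (hg1 v hv).ne h.symm
        · intro v hv
          simp only [W, mem_filter, mem_univ, true_and]
          exact ⟨v, (hg1 v hv).symm, by rw [← hc.symm v (g v hv) (hg1 v hv)]; exact hg2 v hv⟩
        · intro v hv
          have hm : g v hv ∈ W a := by
            simp only [W, mem_filter, mem_univ, true_and]
            exact ⟨v, (hg1 v hv).symm, by rw [← hc.symm v (g v hv) (hg1 v hv)]; exact hg2 v hv⟩
          apply hc.inj (g v hv) _ _ (hg1 _ hm) (hg1 v hv).symm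
          rw [hg2 _ hm, ← hc.symm v (g v hv) (hg1 v hv), hg2 v hv]
      rw [sum_const, nsmul_eq_mul, mul_one, ZMod.natCast_eq_zero_iff] at hsum
      exact even_iff_two_dvd.2 hsum
    have hle : (W a).card ≤ Fintype.card V := card_le_univ _
    obtain ⟨m, hm⟩ := heven
    omega
  calc ∑ v, dg G v = ∑ a ∈ range k, (W a).card := h2
    _ ≤ ∑ a ∈ range k, 2 * (Fintype.card V / 2) := sum_le_sum h3
    _ = k * (2 * (Fintype.card V / 2)) := by rw [sum_const, card_range, smul_eq_mul]

end Fin

end Pool.Q6.CI
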